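import Mathlib
import Pool.Agent.Lib.MP_11b949_pr.Ex

set_option autoImplicit false

open MeasureTheory

namespace Pool.Agent.Lib.MP_11b949_pr.Old.EndpointFinite

open Pool.Agent.Lib.MP_11b949_pr

theorem result (s l : ℝ) (hs : 0 < s) (h0 : 0 < l) (h1 : l < Real.log 2) :
    ∃ (Ω : Type) (_ : MeasurableSpace Ω) (P : Measure Ω) (η : ℕ → Ω → ℝ),
      IsDisorder P η ∧ MemLp (η 0) 2 P ∧ momLam P η s = ENNReal.ofReal l ∧ critLam P η s = l ∧
      (∀ lam, 0 ≤ lam → lam ≤ l → critCurve P η lam s < ⊤) ∧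
      ∀ lam, l < lam → critCurve P η lam s = ⊤ := by
  obtain ⟨Ω, m, P, ⟨η, k1, k2, k3, k4, k5⟩, -⟩ := examples s l hs h0 h1
  refine ⟨Ω, m, P, η, k1, k2, k4, k3, fun lam a b => ?_, fun lam a => k1.above s lam (k3 ▸ a)⟩
  rcases b.eq_or_lt with rfl | b
  · exact k5
  · exact below η s lam a (k3 ▸ b)

end Pool.Agent.Lib.MP_11b949_pr.Old.EndpointFinite
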