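import Mathlib
import Pool.Agent.Lib.MP_11b949_pr.Ex

set_option autoImplicit false

open MeasureTheory ProbabilityTheory Filter Topology

namespace Pool.Agent.Lib.MP_11b949_pr.Old.EndpointInfinite

open Pool.Agent.Lib.MP_11b949_pr

theorem result (Ω : Type) [MeasurableSpace Ω] (P : Measure Ω) [IsProbabilityMeasure P]
    (η : ℕ → Ω → ℝ) (hm : ∀ i, Measurable (η i)) (hind : iIndepFun η P)
    (hid : ∀ i, IdentDistrib (η i) (η 0) P P) (hi : Integrable (η 0) P)
    (hc : ∫ ω, η 0 ω ∂P = 0) (s : ℝ) (_hs : 0 < s)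
    (hexp : ∃ Λ : ℝ, critLam P η s < Λ ∧
      Integrable (fun ω => Real.exp (2 / 3 * Λ * s * η 0 ω)) P) :
    0 < critLam P η s ∧
      (∀ lam, 0 ≤ lam → lam < critLam P η s → critCurve P η lam s < ⊤) ∧
      (∀ lam, critLam P η s < lam → critCurve P η lam s = ⊤) ∧
      critCurve P η (critLam P η s) s = ⊤ := by
  obtain ⟨Λ, hΛ, hint⟩ := hexp
  have H : IsDisorder P η := ⟨inferInstance, hm, hind, hid, hi, hc⟩
  exact ⟨(H.endpoint s Λ hΛ hint).1, below η s, H.above s, (H.endpoint s Λ hΛ hint).2⟩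

end Pool.Agent.Lib.MP_11b949_pr.Old.EndpointInfinite
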